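import Pool.Agent.N659.HB.Stm3
import Pool.Agent.N455.HB.Chi

/-!
Chaos expansion for general laws on the lattice from the finite case (subtask KS/CGI).
Adapted from `Pool.Agent.N455.HB`.
-/

namespace Pool.Agent.N655.KS

open MeasureTheory Filter Pool.Agent.W792.LL Pool.Agent.W792.WA Pool.Agent.N659.HB
  Pool.Agent.N455.HB
open scoped Topology ENNReal

noncomputable section

variable {d : ℕ}

/-- the potential divided by its bound, truncated -/
def cl (α x : ℝ) : ℝ := max (-1) (min 1 (x / α))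

theorem cl_cont (α : ℝ) : Continuous (cl α) := by unfold cl; fun_prop

theorem cl_meas (α : ℝ) : Measurable (cl α) := (cl_cont α).measurable

theorem cl_abs (α x : ℝ) : |cl α x| ≤ 1 := by
  unfold cl
  rw [abs_le]
  refine ⟨le_max_left _ _, max_le (by norm_num) (min_le_left _ _)⟩

theorem cl_eq {α x : ℝ} (hα : 0 < α) (hx : |x| ≤ α) : cl α x = x / α := by
  have h1 : |x / α| ≤ 1 := by
    rw [abs_div, abs_of_pos hα]
    exact (div_le_one hα).2 hx
  obtain ⟨h2, h3⟩ := abs_le.1 h1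
  unfold cl
  rw [min_eq_right h3, max_eq_right h2]

theorem ud_def (α : ℝ) (v : (Fin d → ℤ) → ℝ) : ud α v = dia fun x => ((cl α (v x) : ℝ) : ℂ) := rfl

section

variable (hd : S_DIA)

include hd

theorem ud_apply (α : ℝ) (v : (Fin d → ℤ) → ℝ) (u : l2 (Fin d → ℤ)) (x : Fin d → ℤ) :
    ud α v u x = ((cl α (v x) : ℝ) : ℂ) * u x :=
  (hd (Fin d → ℤ) (fun x => ((cl α (v x) : ℝ) : ℂ)) (fun x => by
    rw [Complex.norm_real]; exact cl_abs _ _)).1 u x

theorem ud_norm (α : ℝ) (v : (Fin d → ℤ) → ℝ) (u : l2 (Fin d → ℤ)) : ‖ud α v u‖ ≤ ‖u‖ := by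
  have h1 := (hd (Fin d → ℤ) (fun x => ((cl α (v x) : ℝ) : ℂ)) (fun x => by
    rw [Complex.norm_real]; exact cl_abs _ _)).2
  refine ((ud α v).le_opNorm u).trans ?_
  exact mul_le_of_le_one_left (norm_nonneg _) h1

end

/-- the truncated expansion -/
def cgL (α : ℝ) (q : C(UnitAddTorus (Fin d), ℂ)) (Λ : Finset (Fin d → ℤ))
    (v : (Fin d → ℤ) → ℝ) (k : ℕ) : l2 (Fin d → ℤ) →L[ℂ] l2 (Fin d → ℤ) :=
  (ud α v * (pj Λ * (opr q * pj Λ))) ^ k * (ud α v * pj Λ)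

theorem cgL_zero (α : ℝ) (q : C(UnitAddTorus (Fin d), ℂ)) (Λ : Finset (Fin d → ℤ))
    (v : (Fin d → ℤ) → ℝ) (u : l2 (Fin d → ℤ)) : cgL α q Λ v 0 u = ud α v (pj Λ u) := by
  unfold cgL
  rw [pow_zero, one_mul]
  rfl

theorem cgL_succ (α : ℝ) (q : C(UnitAddTorus (Fin d), ℂ)) (Λ : Finset (Fin d → ℤ))
    (v : (Fin d → ℤ) → ℝ) (k : ℕ) (u : l2 (Fin d → ℤ)) :
    cgL α q Λ v (k + 1) u = ud α v (pj Λ (opr q (pj Λ (cgL α q Λ v k u)))) := by
  unfold cgL
  rw [pow_succ', mul_assoc]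
  rfl

theorem cg_zero (α : ℝ) (q : C(UnitAddTorus (Fin d), ℂ)) (v : (Fin d → ℤ) → ℝ)
    (u : l2 (Fin d → ℤ)) : cg α q v 0 u = ud α v u := by
  unfold cg
  rw [pow_zero, one_mul]

theorem cg_succ (α : ℝ) (q : C(UnitAddTorus (Fin d), ℂ)) (v : (Fin d → ℤ) → ℝ) (k : ℕ)
    (u : l2 (Fin d → ℤ)) : cg α q v (k + 1) u = ud α v (opr q (cg α q v k u)) := by
  unfold cg
  rw [pow_succ', mul_assoc]
  rfl

/-- the variables on a finite set -/
def uL (α : ℝ) (Λ : Finset (Fin d → ℤ)) (v : (Fin d → ℤ) → ℝ) : Λ → ℝ := fun y => cl α (v y)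

theorem uL_meas (α : ℝ) (Λ : Finset (Fin d → ℤ)) : Measurable (uL α Λ) := by
  rw [measurable_pi_iff]
  intro y
  exact (cl_meas α).comp (measurable_pi_apply y.1)

theorem yk_cont {Λ : Type} [Fintype Λ] (T : Λ → Λ → ℂ) (f : Λ → ℂ) (k : ℕ) :
    ∀ y : Λ, Continuous fun u : Λ → ℝ => yk T f u k y := by
  induction k with
  | zero =>
    intro y
    unfold yk
    fun_prop
  | succ k ih =>
    intro y
    unfold yk
    refine (Complex.continuous_ofReal.comp (continuous_apply y)).mul ?_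
    exact continuous_finsetSum _ fun y' _ => continuous_const.mul (ih y')

theorem ex0_cont (Λ : Finset (Fin d → ℤ)) : Continuous (ex0 Λ) := by
  unfold ex0
  refine continuous_finsetSum _ fun y _ => ?_
  have h1 : (fun a : Λ → ℂ => (lp.single 2 y.1 (a y) : l2 (Fin d → ℤ))) =
      fun a => (a y) • (lp.single 2 y.1 (1 : ℂ) : l2 (Fin d → ℤ)) := by
    funext a
    rw [← lp.single_smul]
    simp
  rw [h1]
  exact (continuous_apply y).smul continuous_const

section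

variable (hd : S_DIA)

include hd

theorem cgL_tendsto (α : ℝ) (q : C(UnitAddTorus (Fin d), ℂ)) (v : (Fin d → ℤ) → ℝ)
    (u : l2 (Fin d → ℤ)) (k : ℕ) :
    Tendsto (fun Λ => cgL α q Λ v k u) atTop (𝓝 (cg α q v k u)) := by
  induction k with
  | zero =>
    simp only [cgL_zero, cg_zero]
    exact ((ud α v).continuous.tendsto _).comp (pj_tendsto hd u)
  | succ k ih =>
    simp only [cgL_succ, cg_succ]
    refine ((ud α v).continuous.tendsto _).comp (pj_tendsto' hd _ _ ?_)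
    exact ((opr q).continuous.tendsto _).comp (pj_tendsto' hd _ _ ih)

variable (ho : S_OPR)

include ho

theorem cgL_norm (α : ℝ) (q : C(UnitAddTorus (Fin d), ℂ)) {M : ℝ} (hM : ‖q‖ ≤ M)
    (Λ : Finset (Fin d → ℤ)) (v : (Fin d → ℤ) → ℝ) (k : ℕ) (u : l2 (Fin d → ℤ)) :
    ‖cgL α q Λ v k u‖ ≤ M ^ k * ‖u‖ := by
  have hM0 : 0 ≤ M := (norm_nonneg _).trans hM
  induction k with
  | zero =>
    rw [cgL_zero, pow_zero, one_mul]
    exact (ud_norm hd _ _ _).trans (pj_norm hd _ _)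
  | succ k ih =>
    rw [cgL_succ]
    refine (ud_norm hd _ _ _).trans ((pj_norm hd _ _).trans (((opr q).le_opNorm _).trans ?_))
    rw [pow_succ', mul_assoc]
    exact mul_le_mul ((ho d q q).2.1.trans hM) ((pj_norm hd _ _).trans ih) (norm_nonneg _) hM0

theorem cgL_coord (α : ℝ) (q : C(UnitAddTorus (Fin d), ℂ)) (Λ : Finset (Fin d → ℤ))
    (v : (Fin d → ℤ) → ℝ) (u : l2 (Fin d → ℤ)) (k : ℕ) : ∀ y : Fin d → ℤ,
    (y ∉ Λ → cgL α q Λ v k u y = 0) ∧ ∀ h : y ∈ Λ, cgL α q Λ v k u y =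
      yk (TL q Λ) (fun y => u y) (uL α Λ v) k ⟨y, h⟩ := by
  induction k with
  | zero =>
    intro y
    rw [cgL_zero, ud_apply hd, pj_apply hd]
    refine ⟨fun h => by rw [if_neg h, mul_zero], fun h => ?_⟩
    rw [if_pos h]
    rfl
  | succ k ih =>
    intro y
    rw [cgL_succ, ud_apply hd, pj_apply hd]
    refine ⟨fun h => by rw [if_neg h, mul_zero], fun h => ?_⟩
    rw [if_pos h]
    unfold yk
    refine congrArg₂ (· * ·) rfl ?_
    rw [opr_fin ho q Λ]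
    · refine Finset.sum_congr rfl fun y' _ => ?_
      rw [pj_apply hd, if_pos y'.2, (ih y').2 y'.2]
      rfl
    · intro x hx
      rw [pj_apply hd, if_neg hx]

theorem cgL_eq (α : ℝ) (q : C(UnitAddTorus (Fin d), ℂ)) (Λ : Finset (Fin d → ℤ))
    (v : (Fin d → ℤ) → ℝ) (k : ℕ) (u : l2 (Fin d → ℤ)) :
    cgL α q Λ v k u = ex0 Λ (yk (TL q Λ) (fun y => u y) (uL α Λ v) k) := by
  ext x
  by_cases hx : x ∈ Λ
  · rw [(cgL_coord hd ho α q Λ v u k x).2 hx]
    exact (ex0_in Λ (yk (TL q Λ) (fun y => u y) (uL α Λ v) k) ⟨x, hx⟩).symm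
  · rw [(cgL_coord hd ho α q Λ v u k x).1 hx, ex0_out Λ _ x hx]

theorem cgL_meas {E : Type} [TopologicalSpace E] [TopologicalSpace.PseudoMetrizableSpace E]
    (α : ℝ) (q : C(UnitAddTorus (Fin d), ℂ))
    (Λ : Finset (Fin d → ℤ)) (k : ℕ) (u : l2 (Fin d → ℤ)) (F : l2 (Fin d → ℤ) → E)
    (hF : Continuous F) : StronglyMeasurable fun v => F (cgL α q Λ v k u) := by
  have h1 : (fun v => F (cgL α q Λ v k u)) =
      (fun ξ => F (ex0 Λ (yk (TL q Λ) (fun y => u y) ξ k))) ∘ uL α Λ := by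
    funext v
    rw [cgL_eq hd ho]
    rfl
  rw [h1]
  have h2 : Continuous fun ξ : Λ → ℝ => F (ex0 Λ (yk (TL q Λ) (fun y => u y) ξ k)) :=
    hF.comp ((ex0_cont Λ).comp (continuous_pi fun y => yk_cont _ _ _ y))
  exact h2.stronglyMeasurable.comp_measurable (uL_meas α Λ)

end

/-- the law of the variables -/
def nu' (α : ℝ) (ν : Measure ℝ) : Measure ℝ := ν.map (cl α)

instance (α : ℝ) (ν : Measure ℝ) [IsProbabilityMeasure ν] : IsProbabilityMeasure (nu' α ν) :=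
  Measure.isProbabilityMeasure_map (cl_meas α).aemeasurable

theorem nu'_ae (α : ℝ) (ν : Measure ℝ) [IsProbabilityMeasure ν] : ∀ᵐ x ∂(nu' α ν), |x| ≤ 1 := by
  unfold nu'
  have hms : MeasurableSet {x : ℝ | |x| ≤ 1} := measurableSet_le measurable_abs measurable_const
  rw [ae_map_iff (cl_meas α).aemeasurable hms]
  exact Eventually.of_forall fun x => cl_abs α x

theorem nu'_int {α : ℝ} (hα : 0 < α) (ν : Measure ℝ) [IsProbabilityMeasure ν]
    (hν : ∀ᵐ x ∂ν, |x| ≤ α) (g : ℝ → ℝ) (hg : Continuous g) :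
    ∫ x, g x ∂(nu' α ν) = ∫ x, g (x / α) ∂ν := by
  unfold nu'
  rw [integral_map (cl_meas α).aemeasurable hg.aestronglyMeasurable]
  refine integral_congr_ae ?_
  filter_upwards [hν] with x hx
  rw [cl_eq hα hx]

theorem uL_map (α : ℝ) (ν : Measure ℝ) [IsProbabilityMeasure ν] (Λ : Finset (Fin d → ℤ)) :
    (Pn ν (Fin d → ℤ)).map (uL α Λ) = Measure.pi (fun _ : Λ => nu' α ν) := by
  have h1 : uL α Λ = (fun (x : Λ → ℝ) i => cl α (x i)) ∘ Λ.restrict := rfl
  have hm : Measurable (fun (x : Λ → ℝ) i => cl α (x i)) :=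
    measurable_pi_iff.2 fun y => (cl_meas α).comp (measurable_pi_apply y)
  rw [h1, ← Measure.map_map hm (Finset.measurable_restrict Λ)]
  unfold Pn
  rw [Measure.infinitePi_map_restrict]
  exact Measure.pi_map_pi (fun _ => (cl_meas α).aemeasurable)

theorem int_fin' {E : Type} [NormedAddCommGroup E] [NormedSpace ℝ E]
    (α : ℝ) (ν : Measure ℝ) [IsProbabilityMeasure ν] (Λ : Finset (Fin d → ℤ)) (F : (Λ → ℝ) → E)
    (hF : Continuous F) :
    ∫ v, F (uL α Λ v) ∂(Pn ν (Fin d → ℤ)) = ∫ u, F u ∂(Measure.pi fun _ : Λ => nu' α ν) := by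
  rw [← uL_map, integral_map (uL_meas α Λ).aemeasurable]
  exact hF.stronglyMeasurable.aestronglyMeasurable

/-! ### Means of the first terms -/

section means

variable {Λ : Type} [Fintype Λ] [DecidableEq Λ] (ν : Measure ℝ) [IsProbabilityMeasure ν]

theorem mean_prod (h0 : ∫ x, x ∂ν = 0) (y y' : Λ) :
    ∫ u : Λ → ℝ, u y * u y' ∂(Measure.pi fun _ : Λ => ν) =
      if y = y' then ∫ x, x ^ 2 ∂ν else 0 := by
  by_cases h : y = y'
  · subst h
    rw [if_pos rfl]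
    have h1 := integral_fintype_prod_eq_prod (𝕜 := ℝ) (ι := Λ) (μ := fun _ => ν)
      (fun i x => if i = y then x ^ 2 else 1)
    have h2 : ∀ u : Λ → ℝ, ∏ i, (if i = y then (u i) ^ 2 else 1) = u y * u y := by
      intro u
      rw [Finset.prod_ite_eq' Finset.univ y (fun i => (u i) ^ 2), if_pos (Finset.mem_univ _)]
      ring
    simp only [h2] at h1
    rw [h1, Finset.prod_eq_single y]
    · simp
    · intro b _ hb
      simp [hb]
    · intro hb
      exact absurd (Finset.mem_univ y) hb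
  · rw [if_neg h]
    have h1 := integral_fintype_prod_eq_prod (𝕜 := ℝ) (ι := Λ) (μ := fun _ => ν)
      (fun i x => (if i = y then x else 1) * (if i = y' then x else 1))
    have h2 : ∀ u : Λ → ℝ, ∏ i, ((if i = y then u i else 1) * (if i = y' then u i else 1)) =
        u y * u y' := by
      intro u
      rw [Finset.prod_mul_distrib, Finset.prod_ite_eq' Finset.univ y (fun i => u i),
        Finset.prod_ite_eq' Finset.univ y' (fun i => u i), if_pos (Finset.mem_univ _),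
        if_pos (Finset.mem_univ _)]
    simp only [h2] at h1
    rw [h1]
    refine Finset.prod_eq_zero (Finset.mem_univ y) ?_
    simp [h, h0]

theorem mean_one (h0 : ∫ x, x ∂ν = 0) (y : Λ) :
    ∫ u : Λ → ℝ, u y ∂(Measure.pi fun _ : Λ => ν) = 0 := by
  have h1 := integral_fintype_prod_eq_prod (𝕜 := ℝ) (ι := Λ) (μ := fun _ => ν)
      (fun i x => if i = y then x else 1)
  have h2 : ∀ u : Λ → ℝ, ∏ i, (if i = y then (u i) else 1) = u y := by
    intro u
    rw [Finset.prod_ite_eq' Finset.univ y (fun i => (u i)), if_pos (Finset.mem_univ _)]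
  simp only [h2] at h1
  rw [h1]
  refine Finset.prod_eq_zero (Finset.mem_univ y) ?_
  simp [h0]

theorem yk_mean0 (h0 : ∫ x, x ∂ν = 0) (T : Λ → Λ → ℂ) (f : Λ → ℂ) (y : Λ) :
    ∫ u, yk T f u 0 y ∂(Measure.pi fun _ : Λ => ν) = 0 := by
  have h1 : (fun u : Λ → ℝ => yk T f u 0 y) = fun u => ((u y : ℝ) : ℂ) * f y := rfl
  rw [h1, integral_mul_const, integral_complex_ofReal, mean_one ν h0 y]
  simp

omit [DecidableEq Λ] in
theorem pi_ae (hν : ∀ᵐ x ∂ν, |x| ≤ 1) :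
    ∀ᵐ u ∂(Measure.pi fun _ : Λ => ν), ∀ y : Λ, |u y| ≤ 1 := by
  rw [ae_all_iff]
  intro y
  have h1 : (Measure.pi fun _ : Λ => ν).map (fun u => u y) = ν :=
    (measurePreserving_eval (fun _ : Λ => ν) y).map_eq
  have h2 : ∀ᵐ x ∂((Measure.pi fun _ : Λ => ν).map (fun u => u y)), |x| ≤ 1 := by
    rw [h1]; exact hν
  exact ae_of_ae_map (measurable_pi_apply y).aemeasurable h2

theorem yk_mean1 (hν : ∀ᵐ x ∂ν, |x| ≤ 1) (h0 : ∫ x, x ∂ν = 0) (T : Λ → Λ → ℂ) (f : Λ → ℂ)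
    (y : Λ) :
    ∫ u, yk T f u 1 y ∂(Measure.pi fun _ : Λ => ν) =
      ((∫ x, x ^ 2 ∂ν : ℝ) : ℂ) * T y y * f y := by
  have h1 : (fun u : Λ → ℝ => yk T f u 1 y) =
      fun u => ∑ y', (T y y' * f y') * ((u y * u y' : ℝ) : ℂ) := by
    funext u
    have : yk T f u 1 y = ((u y : ℝ) : ℂ) * ∑ y', T y y' * (((u y' : ℝ) : ℂ) * f y') := rfl
    rw [this, Finset.mul_sum]
    refine Finset.sum_congr rfl fun y' _ => ?_
    push_cast
    ring
  rw [h1, integral_finsetSum]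
  · have h2 : ∀ y' : Λ, ∫ u : Λ → ℝ, (T y y' * f y') * ((u y * u y' : ℝ) : ℂ)
        ∂(Measure.pi fun _ : Λ => ν) = if y = y' then ((∫ x, x ^ 2 ∂ν : ℝ) : ℂ) * T y y * f y
          else 0 := by
      intro y'
      rw [integral_const_mul, integral_complex_ofReal, mean_prod ν h0]
      by_cases h : y = y'
      · subst h
        rw [if_pos rfl, if_pos rfl]
        ring
      · rw [if_neg h, if_neg h]
        simp
    simp only [h2]
    rw [Finset.sum_ite_eq, if_pos (Finset.mem_univ _)]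
  · intro y' _
    refine Integrable.const_mul ?_ _
    refine Integrable.of_bound (C := 1) ?_ ?_
    · have : Continuous fun u : Λ → ℝ => ((u y * u y' : ℝ) : ℂ) := by fun_prop
      exact this.stronglyMeasurable.aestronglyMeasurable
    · filter_upwards [pi_ae (Λ := Λ) ν hν] with u hu
      rw [Complex.norm_real, norm_mul]
      exact mul_le_one₀ (hu y) (norm_nonneg _) (hu y')

end means

section

variable (hd : S_DIA) (ho : S_OPR)

include hd ho

theorem lim_int' {E : Type} [NormedAddCommGroup E] [NormedSpace ℝ E]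
    (μ : Measure ((Fin d → ℤ) → ℝ))
    [IsProbabilityMeasure μ] (α : ℝ) (q : C(UnitAddTorus (Fin d), ℂ)) (k : ℕ)
    (u : l2 (Fin d → ℤ))
    (F : l2 (Fin d → ℤ) → E) (hF : Continuous F) (C : ℝ)
    (hC : ∀ x, ‖x‖ ≤ ‖q‖ ^ k * ‖u‖ → ‖F x‖ ≤ C) :
    Tendsto (fun Λ => ∫ v, F (cgL α q Λ v k u) ∂μ) atTop (𝓝 (∫ v, F (cg α q v k u) ∂μ)) := by
  refine tendsto_integral_filter_of_dominated_convergence (fun _ => C) ?_ ?_
    (integrable_const C) ?_
  · exact Eventually.of_forall fun Λ => (cgL_meas hd ho α q Λ k u F hF).aestronglyMeasurable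
  · refine Eventually.of_forall fun Λ => Eventually.of_forall fun v => ?_
    exact hC _ (cgL_norm hd ho α q le_rfl Λ v k u)
  · refine Eventually.of_forall fun v => ?_
    exact (hF.tendsto _).comp (cgL_tendsto hd α q v u k)

theorem cg_meas (α : ℝ) (q : C(UnitAddTorus (Fin d), ℂ)) (k : ℕ) (u : l2 (Fin d → ℤ))
    (x : Fin d → ℤ) : Measurable fun v => cg α q v k u x := by
  have h2 : Continuous (fun g : l2 (Fin d → ℤ) => g x) :=
      (lp.lipschitzWith_one_eval 2 x).continuous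
  refine measurable_of_tendsto_metrizable' (atTop : Filter (Finset (Fin d → ℤ)))
    (f := fun Λ v => cgL α q Λ v k u x) (fun Λ => ?_) ?_
  · exact (cgL_meas hd ho α q Λ k u (fun g => g x) h2).measurable
  · rw [tendsto_pi_nhds]
    intro v
    have h1 := cgL_tendsto hd α q v u k
    exact (h2.tendsto _).comp h1

theorem mean_inner' (α : ℝ) (ν : Measure ℝ) [IsProbabilityMeasure ν]
    (q : C(UnitAddTorus (Fin d), ℂ))
    (Λ : Finset (Fin d → ℤ)) (k : ℕ) (u w : l2 (Fin d → ℤ)) :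
    ∫ v, inner ℂ w (cgL α q Λ v k u) ∂(Pn ν (Fin d → ℤ)) =
      ∑ y : Λ, (∫ ξ, yk (TL q Λ) (fun y => u y) ξ k y ∂(Measure.pi fun _ : Λ => nu' α ν)) *
        (starRingEnd ℂ) (w y) := by
  have h1 : (fun v => inner ℂ w (cgL α q Λ v k u)) = fun v =>
      ∑ y : Λ, yk (TL q Λ) (fun y => u y) (uL α Λ v) k y * (starRingEnd ℂ) (w y) := by
    funext v
    rw [cgL_eq hd ho, ex0_inner]
  rw [h1, integral_finsetSum]
  · refine Finset.sum_congr rfl fun y _ => ?_
    rw [integral_mul_const]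
    congr 1
    exact int_fin' α ν Λ (fun ξ => yk (TL q Λ) (fun y => u y) ξ k y) (yk_cont _ _ _ y)
  · intro y _
    refine Integrable.mul_const ?_ _
    refine Integrable.of_bound (C := ‖q‖ ^ k * ‖u‖) ?_ ?_
    · exact ((yk_cont _ _ _ y).stronglyMeasurable.comp_measurable
        (uL_meas α Λ)).aestronglyMeasurable
    · refine Eventually.of_forall fun v => ?_
      have h2 := (cgL_coord hd ho α q Λ v u k y).2 y.2
      have h3 : ‖cgL α q Λ v k u y‖ ≤ ‖cgL α q Λ v k u‖ := lp.norm_apply_le_norm (by norm_num) _ _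
      rw [h2] at h3
      exact h3.trans (cgL_norm hd ho α q le_rfl Λ v k u)

theorem mean_sq' (α : ℝ) (ν : Measure ℝ) [IsProbabilityMeasure ν]
    (q : C(UnitAddTorus (Fin d), ℂ))
    (Λ : Finset (Fin d → ℤ)) (k : ℕ) (u : l2 (Fin d → ℤ)) :
    ∫ v, ‖cgL α q Λ v k u‖ ^ 2 ∂(Pn ν (Fin d → ℤ)) =
      ∫ ξ, (∑ y, ‖yk (TL q Λ) (fun y => u y) ξ k y‖ ^ 2)
        ∂(Measure.pi fun _ : Λ => nu' α ν) := by
  have h1 : (fun v => ‖cgL α q Λ v k u‖ ^ 2) = fun v =>
      (fun ξ : Λ → ℝ => ∑ y, ‖yk (TL q Λ) (fun y => u y) ξ k y‖ ^ 2) (uL α Λ v) := by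
    funext v
    rw [cgL_eq hd ho, ex0_norm]
  rw [h1]
  refine int_fin' α ν Λ (fun ξ : Λ → ℝ => ∑ y, ‖yk (TL q Λ) (fun y => u y) ξ k y‖ ^ 2) ?_
  exact continuous_finsetSum _ fun y _ => ((yk_cont _ _ _ y).norm.pow 2)

end

theorem main (hd : S_DIA) (ho : S_OPR) (h2 : S_CG2) : S_CGI := by
  intro ν _ d q α M θ b κ hα hν h0 hb hκ hM hθ hb1 hbM hbM2 hκ2
  have hM0 : 0 ≤ M := (norm_nonneg _).trans hM
  have hν' := nu'_ae α ν
  have h0' : ∫ x, x ∂(nu' α ν) = 0 := by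
    rw [nu'_int hα ν hν (fun x => x) continuous_id, integral_div, h0, zero_div]
  have hs2 : ∫ x, x ^ 2 ∂(nu' α ν) = ∫ x, (x / α) ^ 2 ∂ν :=
    nu'_int hα ν hν (fun x => x ^ 2) (by fun_prop)
  have hfin : ∀ (Λ : Finset (Fin d → ℤ)) (f : Λ → ℂ) (k : ℕ), 1 ≤ k →
      ∫ u, (∑ y, ‖yk (TL q Λ) f u k y‖ ^ 2) ∂(Measure.pi fun _ : Λ => nu' α ν)
        ≤ 2 * ((4 * k * κ) ^ k) ^ 2 * ∑ y, ‖f y‖ ^ 2 ∧
      ∑ y, ‖∫ u, yk (TL q Λ) f u k y ∂(Measure.pi fun _ : Λ => nu' α ν)‖ ^ 2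
        ≤ (2 * b * (4 * k * κ) ^ (k - 1)) ^ 2 * ∑ y, ‖f y‖ ^ 2 := by
    intro Λ f k hk
    exact h2 (nu' α ν) hν' h0' Λ (TL q Λ) M θ b κ hM0 hb hκ (TL_op ho q hM Λ)
      (fun x => (TL_row q Λ x).trans hθ) (fun y => (TL_col q Λ y).trans hθ)
      (fun x y => (coeff_le q _).trans hb1) hbM hbM2 hκ2 f k hk
  have husum : ∀ (Λ : Finset (Fin d → ℤ)) (u : l2 (Fin d → ℤ)),
      ∑ y : Λ, ‖u y‖ ^ 2 ≤ ‖u‖ ^ 2 := by
    intro Λ u
    rw [Finset.sum_coe_sort Λ fun y => ‖u y‖ ^ 2]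
    exact sum_sq_le u Λ
  have hinner : ∀ (k : ℕ) (u w : l2 (Fin d → ℤ)),
      Tendsto (fun Λ => ∫ v, inner ℂ w (cgL α q Λ v k u) ∂(Pn ν (Fin d → ℤ))) atTop
        (𝓝 (∫ v, inner ℂ w (cg α q v k u) ∂(Pn ν (Fin d → ℤ)))) := by
    intro k u w
    refine lim_int' hd ho _ α q k u (fun g => inner ℂ w g) (by fun_prop)
      (‖w‖ * (‖q‖ ^ k * ‖u‖)) ?_
    intro x hx
    exact (norm_inner_le_norm _ _).trans (mul_le_mul_of_nonneg_left hx (norm_nonneg _))
  refine ⟨fun k u x => cg_meas hd ho α q k u x, ?_, ?_, ?_, ?_⟩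
  · intro k u hk
    have hlim := lim_int' hd ho (Pn ν (Fin d → ℤ)) α q k u (fun g => ‖g‖ ^ 2) (by fun_prop)
      ((‖q‖ ^ k * ‖u‖) ^ 2) (by
        intro x hx
        rw [Real.norm_of_nonneg (by positivity)]
        exact pow_le_pow_left₀ (norm_nonneg _) hx 2)
    refine le_of_tendsto' hlim fun Λ => ?_
    rw [mean_sq' hd ho]
    refine ((hfin Λ (fun y => u y) k hk).1).trans ?_
    exact mul_le_mul_of_nonneg_left (husum Λ u) (by positivity)
  · intro k u w hk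
    have hlim := (hinner k u w).norm
    refine le_of_tendsto' hlim fun Λ => ?_
    rw [mean_inner' hd ho]
    refine (norm_sum_le _ _).trans ?_
    simp only [norm_mul, RCLike.norm_conj]
    have hA := (hfin Λ (fun y => u y) k hk).2
    have hcs := Finset.sum_mul_sq_le_sq_mul_sq Finset.univ
      (fun y : Λ => ‖∫ ξ, yk (TL q Λ) (fun y => u y) ξ k y ∂(Measure.pi fun _ : Λ => nu' α ν)‖)
      (fun y : Λ => ‖w y‖)
    set B : ℝ := 2 * b * (4 * k * κ) ^ (k - 1) with hB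
    have hB0 : 0 ≤ B := by rw [hB]; positivity
    have h3 : (∑ y : Λ, ‖∫ ξ, yk (TL q Λ) (fun y => u y) ξ k y
        ∂(Measure.pi fun _ : Λ => nu' α ν)‖ * ‖w y‖) ^ 2 ≤ (B * (‖w‖ * ‖u‖)) ^ 2 := by
      refine hcs.trans ?_
      have h4 := hA.trans (mul_le_mul_of_nonneg_left (husum Λ u) (by positivity))
      calc _ ≤ (B ^ 2 * ‖u‖ ^ 2) * ‖w‖ ^ 2 :=
            mul_le_mul h4 (husum Λ w) (by positivity) (by positivity)
        _ = _ := by ring
    exact (abs_le_of_sq_le_sq' h3 (by positivity)).2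
  · intro u w
    have hlim := hinner 1 u w
    have hg : ∀ Λ : Finset (Fin d → ℤ),
        ∫ v, inner ℂ w (cgL α q Λ v 1 u) ∂(Pn ν (Fin d → ℤ)) =
          ((∫ x, (x / α) ^ 2 ∂ν : ℝ) : ℂ) * (∫ k, q k) * inner ℂ w (pj Λ u) := by
      intro Λ
      rw [mean_inner' hd ho, ← ex0_pj hd, ex0_inner, Finset.mul_sum]
      refine Finset.sum_congr rfl fun y _ => ?_
      rw [yk_mean1 (nu' α ν) hν' h0', hs2]
      have h3 : TL q Λ y y = ∫ k, q k := by
        unfold TL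
        rw [sub_self, coeff_zero]
      rw [h3]
      ring
    simp only [hg] at hlim
    have h5 : Tendsto (fun Λ : Finset (Fin d → ℤ) =>
        ((∫ x, (x / α) ^ 2 ∂ν : ℝ) : ℂ) * (∫ k, q k) * inner ℂ w (pj Λ u)) atTop
        (𝓝 (((∫ x, (x / α) ^ 2 ∂ν : ℝ) : ℂ) * (∫ k, q k) * inner ℂ w u)) := by
      have h6 : Continuous (fun g : l2 (Fin d → ℤ) =>
        ((∫ x, (x / α) ^ 2 ∂ν : ℝ) : ℂ) * (∫ k, q k) * inner ℂ w g) := by fun_prop
      exact (h6.tendsto _).comp (pj_tendsto hd u)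
    exact tendsto_nhds_unique hlim h5
  · intro u w
    have hlim := hinner 0 u w
    have hg : ∀ Λ : Finset (Fin d → ℤ),
        ∫ v, inner ℂ w (cgL α q Λ v 0 u) ∂(Pn ν (Fin d → ℤ)) = 0 := by
      intro Λ
      rw [mean_inner' hd ho]
      refine Finset.sum_eq_zero fun y _ => ?_
      rw [yk_mean0 (nu' α ν) h0', zero_mul]
    simp only [hg] at hlim
    exact (tendsto_nhds_unique hlim tendsto_const_nhds)

end

end Pool.Agent.N655.KS
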